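import Pool.Agent.Helper58.FX.St.Stubs

set_option autoImplicit false
open MeasureTheory Filter Topology Helper17.LevelSets
open scoped InnerProductSpace ComplexConjugate ENNReal

/-! FX-10: the mean ergodic theorem in terms of Fourier coefficients. -/

namespace Helper43.FX
open Helper58.FX

section Hilbert

variable {H : Type*} [NormedAddCommGroup H] [InnerProductSpace ℂ H] [CompleteSpace H]
  {U V : H →ₗᵢ[ℂ] H}

/-- averages over boxes -/
noncomputable def Av (U V : H →ₗᵢ[ℂ] H) (N : ℕ) (v : H) : H :=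
  ((N : ℂ) ^ 2)⁻¹ • ∑ s ∈ box N, act U V s v

lemma av_tendsto (hUV : Commute U V) (v : H) :
    Tendsto (fun N => Av U V N v) atTop (𝓝 (PE U V 1 1 v)) := by
  have h := St.mean_ergodic (U := U) (V := V) hUV (α := 1) (β := 1) (by simp) (by simp) v
  refine h.congr fun N => ?_
  simp [Av]

lemma pe_mem (U V : H →ₗᵢ[ℂ] H) (v : H) : PE U V 1 1 v ∈ Eg U V 1 1 := by
  unfold PE
  exact Submodule.starProjection_apply_mem _ _

lemma inner_pe (U V : H →ₗᵢ[ℂ] H) {w : H} (hw : w ∈ Eg U V 1 1) (v : H) :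
    ⟪w, PE U V 1 1 v⟫_ℂ = ⟪w, v⟫_ℂ := by
  have h : v - PE U V 1 1 v ∈ (Eg U V 1 1)ᗮ := by
    unfold PE
    exact Submodule.sub_starProjection_mem_orthogonal v
  have h2 := (Submodule.mem_orthogonal _ _).1 h w hw
  rw [inner_sub_right, sub_eq_zero] at h2
  exact h2.symm

lemma act_inv {w : H} (hw : w ∈ Eg U V 1 1) (s : ℕ × ℕ) : act U V s w = w := by
  obtain ⟨h1, h2⟩ := hw
  rw [one_smul] at h1 h2
  have hV : ∀ k : ℕ, (V ^ k) w = w := by
    intro k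
    induction k with
    | zero => rfl
    | succ k ih => rw [pow_succ]; show (V ^ k) (V w) = w; rw [h2, ih]
  have hU : ∀ k : ℕ, (U ^ k) w = w := by
    intro k
    induction k with
    | zero => rfl
    | succ k ih => rw [pow_succ]; show (U ^ k) (U w) = w; rw [h1, ih]
  show (U ^ s.1) ((V ^ s.2) w) = w
  rw [hV, hU]

lemma pe_act (s : ℕ × ℕ) (v : H) : PE U V 1 1 (act U V s v) = PE U V 1 1 v := by
  have key : ∀ w ∈ Eg U V 1 1, ⟪w, act U V s v⟫_ℂ = ⟪w, v⟫_ℂ := by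
    intro w hw
    conv_lhs => rw [← act_inv hw s]
    exact (act U V s).inner_map_map w v
  have h1 : PE U V 1 1 (act U V s v) - PE U V 1 1 v ∈ Eg U V 1 1 :=
    Submodule.sub_mem _ (pe_mem U V _) (pe_mem U V _)
  have h2 : ⟪PE U V 1 1 (act U V s v) - PE U V 1 1 v,
      PE U V 1 1 (act U V s v) - PE U V 1 1 v⟫_ℂ = 0 := by
    rw [inner_sub_right, inner_pe U V h1, inner_pe U V h1, key _ h1, sub_self]
  exact sub_eq_zero.1 (inner_self_eq_zero.1 h2)

lemma card_box (N : ℕ) : (box N).card = N ^ 2 := by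
  simp [box, sq]

lemma pe_av {N : ℕ} (hN : 1 ≤ N) (v : H) : PE U V 1 1 (Av U V N v) = PE U V 1 1 v := by
  unfold Av
  rw [map_smul, map_sum]
  simp only [pe_act]
  rw [Finset.sum_const, card_box, ← Nat.cast_smul_eq_nsmul ℂ, smul_smul]
  have : (N : ℂ) ≠ 0 := by
    exact_mod_cast Nat.one_le_iff_ne_zero.1 hN
  rw [Nat.cast_pow, inv_mul_cancel₀ (pow_ne_zero 2 this), one_smul]

lemma norm_pe_le (v : H) : ‖PE U V 1 1 v‖ ≤ ‖v‖ := by
  unfold PE
  exact Submodule.norm_starProjection_apply_le _ _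

lemma norm_pe_le_av {N : ℕ} (hN : 1 ≤ N) (v : H) : ‖PE U V 1 1 v‖ ≤ ‖Av U V N v‖ := by
  rw [← pe_av hN v]
  exact norm_pe_le _

end Hilbert

section Circle

variable {μ : Measure Tor}

lemma sum_box (N : ℕ) (f : ℕ × ℕ → ℂ) :
    ∑ s ∈ box N, f s = ∑ p : Fin N × Fin N, f ((p.1 : ℕ), (p.2 : ℕ)) := by
  unfold box
  rw [Finset.sum_product, Fintype.sum_prod_type, Finset.sum_range]
  refine Finset.sum_congr rfl fun i _ => ?_
  rw [Finset.sum_range]

lemma ee_eq [IsProbabilityMeasure μ] (h2 : MeasurePreserving (T 2) μ μ)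
    (h3 : MeasurePreserving (T 3) μ μ) (n : ℤ) (L : ℕ) :
    EE (fun j => ft μ (n * j)) L = ((‖Av (UU h2) (UU h3) L (ev μ n)‖ ^ 2 : ℝ) : ℂ) := by
  have h1 : ⟪Av (UU h2) (UU h3) L (ev μ n), Av (UU h2) (UU h3) L (ev μ n)⟫_ℂ
      = ((‖Av (UU h2) (UU h3) L (ev μ n)‖ ^ 2 : ℝ) : ℂ) := by
    rw [inner_self_eq_norm_sq_to_K]
    push_cast
    rfl
  rw [← h1]
  unfold Av EE
  rw [inner_smul_left, inner_smul_right, sum_inner]
  simp only [inner_sum, St.act_ev, St.inner_ev]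
  have h4 : ∀ s : ℕ × ℕ, ∀ t : ℕ × ℕ, sc t * n - sc s * n = n * (sc t - sc s) := by
    intro s t; ring
  simp only [h4]
  rw [sum_box]
  simp only [sum_box]
  rw [Finset.sum_comm, ← Fintype.sum_prod_type', map_inv₀, map_pow, Complex.conj_natCast]
  rw [← mul_assoc]
  congr 1
  rw [one_div, ← mul_inv, ← pow_add]

theorem me [IsProbabilityMeasure μ] (h2 : MeasurePreserving (T 2) μ μ)
    (h3 : MeasurePreserving (T 3) μ μ) (n : ℤ) :
    ∃ E : ℝ, Tendsto (fun L => EE (fun j => ft μ (n * j)) L) atTop (𝓝 (E : ℂ)) ∧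
      Tendsto (fun N : ℕ => (∑ s ∈ box N, ft μ (n * (sc s - 1))) / (N : ℂ) ^ 2) atTop
        (𝓝 (E : ℂ)) ∧
      ‖ft μ n‖ ^ 2 ≤ E ∧ ∀ M : ℕ, 1 ≤ M → E ≤ (EE (fun j => ft μ (n * j)) M).re := by
  have hUV := St.commute_UU h2 h3
  have ht := av_tendsto hUV (ev μ n)
  have h0 : ev μ 0 ∈ Eg (UU h2) (UU h3) 1 1 := by
    rw [mem_Eg, one_smul]
    have e2 := St.act_ev h2 h3 (1, 0) 0
    have e3 := St.act_ev h2 h3 (0, 1) 0
    rw [mul_zero] at e2 e3
    refine ⟨?_, ?_⟩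
    · simpa [act] using e2
    · simpa [act] using e3
  refine ⟨‖PE (UU h2) (UU h3) 1 1 (ev μ n)‖ ^ 2, ?_, ?_, ?_, ?_⟩
  · simp only [ee_eq h2 h3]
    refine (Complex.continuous_ofReal.tendsto _).comp ?_
    exact (ht.norm).pow 2
  · have h5 : Tendsto (fun N => ⟪ev μ n, Av (UU h2) (UU h3) N (ev μ n)⟫_ℂ) atTop
        (𝓝 ⟪ev μ n, PE (UU h2) (UU h3) 1 1 (ev μ n)⟫_ℂ) :=
      Tendsto.inner tendsto_const_nhds ht
    have h6 : ⟪ev μ n, PE (UU h2) (UU h3) 1 1 (ev μ n)⟫_ℂ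
        = ((‖PE (UU h2) (UU h3) 1 1 (ev μ n)‖ ^ 2 : ℝ) : ℂ) := by
      have h7 := inner_pe (UU h2) (UU h3) (pe_mem (UU h2) (UU h3) (ev μ n)) (ev μ n)
      have h8 : ⟪ev μ n, PE (UU h2) (UU h3) 1 1 (ev μ n)⟫_ℂ
          = conj ⟪PE (UU h2) (UU h3) 1 1 (ev μ n), ev μ n⟫_ℂ := (inner_conj_symm _ _).symm
      rw [h8, ← h7, inner_self_eq_norm_sq_to_K]
      rw [map_pow]
      push_cast
      congr 1
      exact Complex.conj_ofReal _
    rw [h6] at h5
    refine h5.congr fun N => ?_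
    unfold Av
    rw [inner_smul_right, inner_sum]
    simp only [St.act_ev, St.inner_ev]
    rw [div_eq_inv_mul]
    congr 1
    refine Finset.sum_congr rfl fun s _ => ?_
    congr 1
    ring
  · have h9 : ft μ n = ⟪ev μ 0, ev μ n⟫_ℂ := by rw [St.inner_ev, sub_zero]
    rw [h9, ← inner_pe (UU h2) (UU h3) h0]
    have h10 := norm_inner_le_norm (𝕜 := ℂ) (ev μ 0) (PE (UU h2) (UU h3) 1 1 (ev μ n))
    rw [St.norm_ev, one_mul] at h10
    exact pow_le_pow_left₀ (norm_nonneg _) h10 2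
  · intro M hM
    rw [ee_eq h2 h3, Complex.ofReal_re]
    exact pow_le_pow_left₀ (norm_nonneg _) (norm_pe_le_av hM _) 2

end Circle

end Helper43.FX
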